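import Mathlib

/-!
# Weak phase retrieval by `2n - 2` vectors is a nowhere dense property

For every `n ≥ 2` the set of frames of `2n - 2` vectors of `ℝⁿ` doing weak phase retrieval is
nowhere dense; in particular it is not dense in the set of all frames of `2n - 2` vectors.
-/

set_option autoImplicit false

open Set Filter Topology

namespace Pool.Agent.Results.MP_e57dcf_an.NowhereDense

/-- `(x_1, …, x_m)` is a frame for `ℝⁿ`. -/
def IsFrame {n m : ℕ} (X : Fin m → EuclideanSpace ℝ (Fin n)) : Prop :=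
  ∃ A B : ℝ, 0 < A ∧ A ≤ B ∧ ∀ x : EuclideanSpace ℝ (Fin n),
    A * ‖x‖ ^ 2 ≤ ∑ i, |inner ℝ x (X i)| ^ 2 ∧ ∑ i, |inner ℝ x (X i)| ^ 2 ≤ B * ‖x‖ ^ 2

/-- `x` and `y` weakly have the same phase. -/
def WeaklySamePhase {n : ℕ} (x y : EuclideanSpace ℝ (Fin n)) : Prop :=
  ∃ θ : ℝ, (θ = 1 ∨ θ = -1) ∧ ∀ k, x k * y k ≠ 0 → Real.sign (x k) = θ * Real.sign (y k)

/-- The family `(x_1, …, x_m)` does weak phase retrieval in `ℝⁿ`. -/
def WeakPhaseRetrieval {n m : ℕ} (X : Fin m → EuclideanSpace ℝ (Fin n)) : Prop :=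
  ∀ x y : EuclideanSpace ℝ (Fin n), (∀ i, |inner ℝ x (X i)| = |inner ℝ y (X i)|) →
    WeaklySamePhase x y

/-- `𝓕_{n,m}`: the frames of `m` vectors. -/
def frames (n m : ℕ) : Set (Fin m → EuclideanSpace ℝ (Fin n)) := {X | IsFrame X}

/-- `𝓦_n`: the frames of `2n - 2` vectors that do weak phase retrieval. -/
def weakFrames (n : ℕ) : Set (Fin (2 * n - 2) → EuclideanSpace ℝ (Fin n)) :=
  {X | IsFrame X ∧ WeakPhaseRetrieval X}

section aux

variable {n : ℕ}

/-- Inserting `w` as row `p` in the family `a`. -/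
def mat (p : Fin (n + 1)) (w : Fin (n + 1) → ℝ) (a : Fin n → Fin (n + 1) → ℝ) :
    Matrix (Fin (n + 1)) (Fin (n + 1)) ℝ := Matrix.of (p.insertNth w a)

/-- The normal vector (cofactors of the row `p`). -/
noncomputable def nor (p : Fin (n + 1)) (a : Fin n → Fin (n + 1) → ℝ) (k : Fin (n + 1)) : ℝ :=
  (-1) ^ (p + k : ℕ) * (Matrix.of fun i j => a i (k.succAbove j)).det

lemma sum_nor (p : Fin (n + 1)) (a : Fin n → Fin (n + 1) → ℝ) (w : Fin (n + 1) → ℝ) :
    ∑ k, nor p a k * w k = (mat p w a).det := by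
  rw [Matrix.det_succ_row (mat p w a) p]
  refine Finset.sum_congr rfl fun k _ => ?_
  have : (mat p w a).submatrix p.succAbove k.succAbove =
      Matrix.of fun i j => a i (k.succAbove j) := by
    ext i j
    simp [mat]
  rw [this, nor]
  simp [mat]
  ring

lemma nor_orth (p : Fin (n + 1)) (a : Fin n → Fin (n + 1) → ℝ) (j : Fin n) :
    ∑ k, nor p a k * a j k = 0 := by
  rw [sum_nor]
  apply Matrix.det_zero_of_row_eq (i := p) (j := p.succAbove j) (Fin.succAbove_ne p j).symm
  ext l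
  simp [mat]

/-- Normal vector of the coordinate hyperplane. -/
lemma nor_coord (p k : Fin (n + 1)) :
    nor p (fun j => Pi.single (p.succAbove j) 1) k = if k = p then 1 else 0 := by
  have h := sum_nor p (fun j => (Pi.single (p.succAbove j) 1 : Fin (n + 1) → ℝ)) (Pi.single k 1)
  have h1 : ∑ l, nor p (fun j => (Pi.single (p.succAbove j) 1 : Fin (n + 1) → ℝ)) l *
      (Pi.single k 1 : Fin (n + 1) → ℝ) l =
      nor p (fun j => (Pi.single (p.succAbove j) 1 : Fin (n + 1) → ℝ)) k := by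
    simp [Pi.single_apply]
  rw [h1] at h
  rw [h]
  split_ifs with hk
  · subst hk
    have : mat k (Pi.single k 1) (fun j => (Pi.single (k.succAbove j) 1 : Fin (n + 1) → ℝ)) = 1 := by
      ext i j
      refine Fin.succAboveCases k ?_ (fun i => ?_) i
      · simp [mat, Matrix.one_apply, Pi.single_apply, eq_comm]
      · simp [mat, Matrix.one_apply, Pi.single_apply, eq_comm]
    rw [this, Matrix.det_one]
  · obtain ⟨l, hl⟩ := Fin.exists_succAbove_eq hk
    subst hl
    apply Matrix.det_zero_of_row_eq (i := p) (j := p.succAbove l) (Fin.succAbove_ne p l).symm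
    ext q
    simp [mat]

/-- The separation choice. -/
lemma exists_t {a b c d : ℝ} (h : |b * c| < |a * d|) :
    ∃ t : ℝ, 0 < t ∧ t * |c| < |a| ∧ |b| < t * |d| := by
  rw [abs_mul, abs_mul] at h
  have ha := abs_nonneg a
  have hb := abs_nonneg b
  have hc := abs_nonneg c
  have hd := abs_nonneg d
  have hd0 : 0 < |d| := by
    by_contra hcon
    have : |d| = 0 := le_antisymm (not_lt.1 hcon) hd
    rw [this, mul_zero] at h
    nlinarith
  have ha0 : 0 < |a| := by
    by_contra hcon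
    have : |a| = 0 := le_antisymm (not_lt.1 hcon) ha
    rw [this, zero_mul] at h
    nlinarith
  have hden : 0 < |c| + |d| := by linarith
  refine ⟨(|a| + |b|) / (|c| + |d|), by positivity, ?_, ?_⟩
  · rw [div_mul_eq_mul_div, div_lt_iff₀ hden]
    nlinarith
  · rw [div_mul_eq_mul_div, lt_div_iff₀ hden]
    nlinarith

/-- If the normals `u` (to one part of the family) and `v` (to the other part) satisfy
`|u_j v_i| < |u_i v_j|`, weak phase retrieval fails. -/
lemma fails {N m : ℕ} (X : Fin m → EuclideanSpace ℝ (Fin N)) (u v : EuclideanSpace ℝ (Fin N))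
    (hX : ∀ i, inner ℝ u (X i) = 0 ∨ inner ℝ v (X i) = 0) (i j : Fin N)
    (hij : |u j * v i| < |u i * v j|) : ¬ WeakPhaseRetrieval X := by
  intro hW
  obtain ⟨t, ht, h1, h2⟩ := exists_t hij
  obtain ⟨θ, hθ, hs⟩ := hW (u + t • v) (u - t • v) (by
    intro l
    rw [inner_add_left, inner_sub_left, inner_smul_left]
    rcases hX l with h | h
    · rw [h]; simp
    · rw [h]; simp)
  have q1 : 0 < (u + t • v) i * (u - t • v) i := by
    have e : (u + t • v) i * (u - t • v) i = |u i| ^ 2 - (t * |v i|) ^ 2 := by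
      rw [mul_pow, sq_abs, sq_abs]
      simp
      ring
    rw [e]
    have := abs_nonneg (v i)
    have : 0 ≤ t * |v i| := by positivity
    nlinarith
  have q2 : (u + t • v) j * (u - t • v) j < 0 := by
    have e : (u + t • v) j * (u - t • v) j = |u j| ^ 2 - (t * |v j|) ^ 2 := by
      rw [mul_pow, sq_abs, sq_abs]
      simp
      ring
    rw [e]
    have := abs_nonneg (u j)
    have := abs_nonneg (v j)
    have : 0 ≤ t * |v j| := by positivity
    nlinarith
  have s1 := hs i q1.ne'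
  have s2 := hs j q2.ne
  have key1 : ∀ a b : ℝ, 0 < a * b → Real.sign a = Real.sign b := by
    intro a b hab
    rcases pos_and_pos_or_neg_and_neg_of_mul_pos hab with ⟨ha, hb⟩ | ⟨ha, hb⟩
    · rw [Real.sign_of_pos ha, Real.sign_of_pos hb]
    · rw [Real.sign_of_neg ha, Real.sign_of_neg hb]
  have key2 : ∀ a b : ℝ, a * b < 0 → Real.sign a = - Real.sign b := by
    intro a b hab
    rcases mul_neg_iff.1 hab with ⟨ha, hb⟩ | ⟨ha, hb⟩
    · rw [Real.sign_of_pos ha, Real.sign_of_neg hb]; norm_num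
    · rw [Real.sign_of_neg ha, Real.sign_of_pos hb]
  rw [key1 _ _ q1] at s1
  rw [key2 _ _ q2] at s2
  have n1 : Real.sign ((u - t • v) i) ≠ 0 := by
    rw [Ne, Real.sign_eq_zero_iff]
    intro h0
    rw [h0, mul_zero] at q1
    exact lt_irrefl _ q1
  have n2 : Real.sign ((u - t • v) j) ≠ 0 := by
    rw [Ne, Real.sign_eq_zero_iff]
    intro h0
    rw [h0, mul_zero] at q2
    exact lt_irrefl _ q2
  rcases hθ with rfl | rfl
  · apply n2
    linarith
  · apply n1
    linarith

/-- The first `N + 1` vectors. -/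
def fst' {N : ℕ} (X : Fin (2 * (N + 2) - 2) → EuclideanSpace ℝ (Fin (N + 2))) :
    Fin (N + 1) → Fin (N + 2) → ℝ := fun i k => X ⟨i, by omega⟩ k

/-- The last `N + 1` vectors. -/
def snd' {N : ℕ} (X : Fin (2 * (N + 2) - 2) → EuclideanSpace ℝ (Fin (N + 2))) :
    Fin (N + 1) → Fin (N + 2) → ℝ := fun i k => X ⟨N + 1 + i, by omega⟩ k

/-- The polynomial whose vanishing is necessary. -/
noncomputable def P {N : ℕ} (X : Fin (2 * (N + 2) - 2) → EuclideanSpace ℝ (Fin (N + 2))) : ℝ :=
  (nor 0 (fst' X) 0 * nor 1 (snd' X) 1) ^ 2 - (nor 0 (fst' X) 1 * nor 1 (snd' X) 0) ^ 2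

lemma P_zero {N : ℕ} {X : Fin (2 * (N + 2) - 2) → EuclideanSpace ℝ (Fin (N + 2))}
    (h : WeakPhaseRetrieval X) : P X = 0 := by
  by_contra hP
  set u : EuclideanSpace ℝ (Fin (N + 2)) := WithLp.toLp 2 (nor 0 (fst' X)) with hu
  set v : EuclideanSpace ℝ (Fin (N + 2)) := WithLp.toLp 2 (nor 1 (snd' X)) with hv
  have hX : ∀ i, inner ℝ u (X i) = 0 ∨ inner ℝ v (X i) = 0 := by
    intro i
    by_cases hi : (i : ℕ) < N + 1
    · left
      have := nor_orth 0 (fst' X) ⟨i, hi⟩
      rw [← this]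
      simp only [PiLp.inner_apply, hu, fst']
      simp [mul_comm]
    · right
      have := nor_orth 1 (snd' X) ⟨i - (N + 1), by omega⟩
      rw [← this]
      have e : (⟨N + 1 + (i - (N + 1)), by omega⟩ : Fin (2 * (N + 2) - 2)) = i := by
        ext; simp; omega
      simp only [PiLp.inner_apply, hv, snd', e]
      simp [mul_comm]
  rcases lt_or_gt_of_ne (show |u 1 * v 0| ≠ |u 0 * v 1| from fun hne => hP (by
    rw [P]
    have := (sq_eq_sq_iff_abs_eq_abs _ _).2 hne
    rw [sub_eq_zero]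
    exact this.symm)) with h1 | h1
  · exact fails X u v hX 0 1 h1 h
  · exact fails X u v hX 1 0 h1 h

/-- The model family. -/
noncomputable def X0 (N : ℕ) : Fin (2 * (N + 2) - 2) → EuclideanSpace ℝ (Fin (N + 2)) := fun i =>
  if h : (i : ℕ) < N + 1 then EuclideanSpace.single ((0 : Fin (N + 2)).succAbove ⟨i, h⟩) 1
  else EuclideanSpace.single ((1 : Fin (N + 2)).succAbove ⟨i - (N + 1), by omega⟩) 1

lemma fst_X0 (N : ℕ) :
    fst' (X0 N) = fun j => Pi.single ((0 : Fin (N + 2)).succAbove j) 1 := by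
  ext j k
  have : (j : ℕ) < N + 1 := j.2
  simp only [fst', X0, this, dite_true]
  simp [Pi.single_apply]

lemma snd_X0 (N : ℕ) :
    snd' (X0 N) = fun j => Pi.single ((1 : Fin (N + 2)).succAbove j) 1 := by
  ext j k
  have h1 : ¬ (N + 1 + (j : ℕ) < N + 1) := by omega
  have h2 : (⟨N + 1 + (j : ℕ) - (N + 1), by omega⟩ : Fin (N + 1)) = j := by
    ext; simp
  simp only [snd', X0, h1, dite_false, h2]
  simp [Pi.single_apply]

lemma P_X0 (N : ℕ) : P (X0 N) = 1 := by
  rw [P, fst_X0, snd_X0, nor_coord, nor_coord, nor_coord, nor_coord]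
  simp

lemma isFrame_X0 (N : ℕ) : IsFrame (X0 N) := by
  have hle : ∀ (x : EuclideanSpace ℝ (Fin (N + 2))) (i : Fin (2 * (N + 2) - 2)),
      |inner ℝ x (X0 N i)| ^ 2 ≤ ‖x‖ ^ 2 := by
    intro x i
    apply pow_le_pow_left₀ (abs_nonneg _)
    refine (abs_real_inner_le_norm _ _).trans ?_
    have : ‖X0 N i‖ = 1 := by
      rw [X0]; split_ifs <;> simp
    rw [this, mul_one]
  have hex : ∀ k : Fin (N + 2), ∃ i, X0 N i = EuclideanSpace.single k 1 := by
    intro k
    by_cases hk : k = 0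
    · obtain ⟨l, hl⟩ := Fin.exists_succAbove_eq (show (0 : Fin (N + 2)) ≠ 1 by simp)
      refine ⟨⟨N + 1 + l, by omega⟩, ?_⟩
      have h1 : ¬ (N + 1 + (l : ℕ) < N + 1) := by omega
      have h2 : (⟨N + 1 + (l : ℕ) - (N + 1), by omega⟩ : Fin (N + 1)) = l := by
        ext; simp
      simp only [X0, h1, dite_false, h2]
      rw [hl, hk]
    · obtain ⟨l, hl⟩ := Fin.exists_succAbove_eq hk
      refine ⟨⟨l, by omega⟩, ?_⟩
      have h1 : ((l : ℕ) < N + 1) := by omega
      simp only [X0, h1, dite_true]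
      rw [hl]
  choose f hf using hex
  have hfi : Function.Injective f := by
    intro k l hkl
    have h1 := hf k
    rw [hkl, hf l] at h1
    have h2 := congrArg (fun v : EuclideanSpace ℝ (Fin (N + 2)) => v l) h1
    simp at h2
    exact h2.symm
  refine ⟨1, (2 * (N + 2) - 2 : ℕ), one_pos, ?_, fun x => ⟨?_, ?_⟩⟩
  · have : 1 ≤ 2 * (N + 2) - 2 := by omega
    exact_mod_cast this
  · have e1 : ‖x‖ ^ 2 = ∑ k, |inner ℝ x (X0 N (f k))| ^ 2 := by
      rw [EuclideanSpace.norm_sq_eq]
      refine Finset.sum_congr rfl fun k _ => ?_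
      rw [hf k]
      simp [EuclideanSpace.inner_single_right]
    rw [one_mul, e1, ← Finset.sum_image (f := fun i => |inner ℝ x (X0 N i)| ^ 2) (s := Finset.univ)
      (g := f) (fun a _ b _ h => hfi h)]
    exact Finset.sum_le_sum_of_subset_of_nonneg (Finset.subset_univ _) fun i _ _ => by positivity
  · calc ∑ i, |inner ℝ x (X0 N i)| ^ 2 ≤ ∑ _i : Fin (2 * (N + 2) - 2), ‖x‖ ^ 2 :=
        Finset.sum_le_sum fun i _ => hle x i
      _ = _ := by simp

lemma continuous_P (N : ℕ) : Continuous (P (N := N)) := by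
  unfold P nor fst' snd'
  fun_prop

lemma analytic_det {l : ℕ} {t : ℝ} (M : ℝ → Fin l → Fin l → ℝ)
    (h : ∀ i j, AnalyticAt ℝ (fun t => M t i j) t) :
    AnalyticAt ℝ (fun t => (Matrix.of (M t)).det) t := by
  simp only [Matrix.det_apply, Matrix.of_apply, Units.smul_def, zsmul_eq_mul]
  refine Finset.analyticAt_fun_sum _ fun σ _ => ?_
  refine analyticAt_const.mul ?_
  exact Finset.analyticAt_fun_prod _ fun i _ => h _ _

lemma analytic_P {N : ℕ} (X Y : Fin (2 * (N + 2) - 2) → EuclideanSpace ℝ (Fin (N + 2))) :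
    AnalyticOnNhd ℝ (fun t : ℝ => P (X + t • Y)) univ := by
  intro t _
  have h1 : ∀ k l, AnalyticAt ℝ (fun t : ℝ => nor k (fst' (X + t • Y)) l) t := by
    intro k l
    unfold nor
    refine analyticAt_const.mul (analytic_det _ fun i j => ?_)
    simp only [fst', Pi.add_apply, Pi.smul_apply, PiLp.add_apply, PiLp.smul_apply, smul_eq_mul]
    fun_prop
  have h2 : ∀ k l, AnalyticAt ℝ (fun t : ℝ => nor k (snd' (X + t • Y)) l) t := by
    intro k l
    unfold nor
    refine analyticAt_const.mul (analytic_det _ fun i j => ?_)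
    simp only [snd', Pi.add_apply, Pi.smul_apply, PiLp.add_apply, PiLp.smul_apply, smul_eq_mul]
    fun_prop
  exact (((h1 _ _).mul (h2 _ _)).pow 2).sub (((h1 _ _).mul (h2 _ _)).pow 2)

lemma interior_zero (N : ℕ) : interior {X : Fin (2 * (N + 2) - 2) → EuclideanSpace ℝ (Fin (N + 2)) |
    P X = 0} = ∅ := by
  rw [Set.eq_empty_iff_forall_notMem]
  intro X hX
  have h1 : Tendsto (fun t : ℝ => X + t • (X0 N - X)) (𝓝 0) (𝓝 X) := by
    have : Continuous fun t : ℝ => X + t • (X0 N - X) := by fun_prop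
    simpa using this.tendsto 0
  have h2 : (fun t : ℝ => P (X + t • (X0 N - X))) =ᶠ[𝓝 0] 0 := by
    filter_upwards [h1.eventually (mem_interior_iff_mem_nhds.1 hX)] with t ht
    exact ht
  have h3 := (analytic_P X (X0 N - X)).eqOn_zero_of_preconnected_of_eventuallyEq_zero
    isPreconnected_univ (mem_univ 0) h2
  have h4 := h3 (mem_univ 1)
  simp only [one_smul, add_sub_cancel, P_X0] at h4
  norm_num at h4

lemma closure_weak (N : ℕ) : closure (weakFrames (N + 2)) ⊆ {X | P X = 0} :=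
  closure_minimal (fun _ hX => P_zero hX.2) (isClosed_eq (continuous_P N) continuous_const)

end aux

/-- For every `n ≥ 2`, `𝓦_n` is nowhere dense, and it is not dense in `𝓕_{n,2n-2}`. -/
theorem result (n : ℕ) (hn : 2 ≤ n) :
    interior (closure (weakFrames n)) = ∅ ∧ ¬ (frames n (2 * n - 2) ⊆ closure (weakFrames n)) := by
  obtain ⟨N, rfl⟩ := Nat.exists_eq_add_of_le' hn
  refine ⟨?_, fun h => ?_⟩
  · exact Set.subset_empty_iff.1 ((interior_mono (closure_weak N)).trans (interior_zero N).subset)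
  · have := closure_weak N (h (isFrame_X0 N))
    rw [mem_ofPred_eq, P_X0] at this
    norm_num at this

end Pool.Agent.Results.MP_e57dcf_an.NowhereDense
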